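import Pool.Agent.H23.RDD.Targets

/-!
# MP_c65535_nt, row RS: restriction of finite places
-/

namespace Pool.Agent.H11.RDD

open NumberField Pool.Agent.H23.RDD IsDedekindDomain HeightOneSpectrum

theorem pow_aux {a b : ℝ} (ha : 1 < a) (hb : 1 < b) (n : ℤ) (e : ℕ) :
    (b ^ n) ^ e = (a ^ n) ^ (Real.log b / Real.log a * e) := by
  have ha0 : 0 < a := by linarith
  have hb0 : 0 < b := by linarith
  have hla : Real.log a ≠ 0 := (Real.log_pos ha).ne'
  rw [Real.rpow_mul_natCast (zpow_nonneg ha0.le n)]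
  congr 1
  rw [← Real.rpow_intCast, ← Real.rpow_intCast, ← Real.rpow_mul ha0.le,
    Real.rpow_def_of_pos hb0, Real.rpow_def_of_pos ha0]
  congr 1
  field_simp

theorem abv_eq {M : Type} [Field M] [NumberField M] (P : HeightOneSpectrum (𝓞 M)) (x : M) :
    (FinitePlace.mk P).1 x =
      WithZeroMulInt.toNNReal (HeightOneSpectrum.absNorm_ne_zero P) (P.valuation M x) :=
  FinitePlace.norm_embedding' P x

theorem pf_RS : T_RS := by
  intro M M' _ _ _ _ _ w
  obtain ⟨Q, hQ⟩ : ∃ Q : HeightOneSpectrum (𝓞 M'), FinitePlace.mk Q = w :=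
    ⟨w.maximalIdeal, w.mk_maximalIdeal⟩
  let P : HeightOneSpectrum (𝓞 M) := Q.under (𝓞 M)
  have : Q.asIdeal.LiesOver P.asIdeal := Ideal.over_under Q.asIdeal
  have he : 0 < P.asIdeal.ramificationIdx' Q.asIdeal :=
    Nat.pos_of_ne_zero (Ideal.IsDedekindDomain.ramificationIdx'_ne_zero_of_liesOver Q.asIdeal P.ne_bot)
  have hP : (1 : ℝ) < (Ideal.absNorm P.asIdeal : ℕ) := by
    exact_mod_cast HeightOneSpectrum.one_lt_absNorm P
  have hQ' : (1 : ℝ) < (Ideal.absNorm Q.asIdeal : ℕ) := by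
    exact_mod_cast HeightOneSpectrum.one_lt_absNorm Q
  refine ⟨FinitePlace.mk P, Real.log (Ideal.absNorm Q.asIdeal : ℕ) / Real.log (Ideal.absNorm P.asIdeal : ℕ) *
    (P.asIdeal.ramificationIdx' Q.asIdeal : ℕ), ?_, ?_⟩
  · have h1 := Real.log_pos hP
    have h2 := Real.log_pos hQ'
    positivity
  · intro x
    have hk : 0 < Real.log (Ideal.absNorm Q.asIdeal : ℕ) / Real.log (Ideal.absNorm P.asIdeal : ℕ) *
      (P.asIdeal.ramificationIdx' Q.asIdeal : ℕ) := by
      have h1 := Real.log_pos hP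
      have h2 := Real.log_pos hQ'
      positivity
    rcases eq_or_ne x 0 with rfl | hx
    · rw [map_zero, map_zero, map_zero, Real.zero_rpow hk.ne']
    · rw [← hQ, abv_eq, abv_eq, ← valuation_liesOver M' P Q x, map_pow, NNReal.coe_pow]
      have hv : P.valuation M x ≠ 0 := (Valuation.ne_zero_iff _).2 hx
      rw [WithZeroMulInt.toNNReal_neg_apply _ hv, WithZeroMulInt.toNNReal_neg_apply _ hv,
        NNReal.coe_zpow, NNReal.coe_zpow, NNReal.coe_natCast, NNReal.coe_natCast]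
      exact pow_aux hP hQ' _ _

end Pool.Agent.H11.RDD
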