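import Pool.Agent.H23.RDD.Targets
import Pool.Agent.H3.RD.STK

/-!
# MP_c65535_nt, row STK: the Kummer step
-/

set_option autoImplicit false

namespace Pool.Agent.H11.RDD

open NumberField Height Finset Pool.Agent.H24.RD Pool.Agent.H23.RDD

theorem pf_STKD : T_SK1D → T_TOP → T_SK2D → T_STKD := by
  intro hSK1 hTOP hSK2 F Ω _ _ _ _ _ _ _ p hp r γ hγ R d hd
  obtain ⟨C, hC⟩ := hSK1 F Ω p hp r γ hγ.1
  obtain ⟨c, hc⟩ := hTOP F Ω p hp r γ hγ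
  obtain ⟨δ, n0, Q1, hδ, hQ1, h1⟩ := hC (R + c + C) d hd
  obtain ⟨a, Q, hpQ, hQe⟩ := Nat.exists_eq_pow_mul_and_not_dvd hQ1.ne' p hp.ne_one
  refine ⟨n0 + C + c + (R + c + C) + 2 + a, Q, δ, hδ, hpQ, ?_⟩
  intro n m N' K' hm hmn hnR hpN hQN hKN α hα hαδ
  obtain ⟨β, hβ0, hβC, hβR, g, hg, rfl⟩ := hα
  obtain ⟨hg0, j, hj, x, hx⟩ := id hg
  have hlev : Lev C (R + c + C) n0 p n m (m - c - C) (m - c) N' K' :=
    ⟨by omega, by omega, by omega, by omega, hmn, by omega, hpN, hKN⟩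
  have h2 := h1 n m (m - c - C) (m - c) N' K' hlev (by omega) β hβ0 hβC g hg0
    ⟨j, ∏ i, γ i ^ x i, hj, by rw [hx, map_prod]; simp only [map_zpow₀]⟩ hαδ
  have hQd : Q1 ∣ p ^ n * N' := by
    rw [hQe]
    exact mul_dvd_mul (pow_dvd_pow p (by omega)) hQN
  have h3 := hSK2 F Ω p hp r γ hγ.1 n m N' K' Q1 d (by omega) hmn hpN hKN hQ1 hQd β hβ0 hβC hβR
    (fun h hh => by
      obtain ⟨h', hh', rfl⟩ := hc n m N' K' (by omega) hmn hpN hKN h hh.1 hh.2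
      have h4 := h2 h' hh'
      rwa [show m - c - 1 = m - 1 - c by omega] at h4)
  obtain ⟨β₁, hβ₁0, hβ₁C, hβ₁R, g₁, hg₁, he⟩ := h3
  exact ⟨β₁, hβ₁0, hβ₁C, hβ₁R, g₁ * g, Pool.Agent.H3.RD.stk_Dv hγ.1 hg₁ hg, by rw [he, mul_assoc]⟩

end Pool.Agent.H11.RDD
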